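import Pool.Agent.FLX.Stmts
import Pool.Agent.FLX.Kit

/-!
# FLX, module REB: the Green operator commutes with the infinitesimal rotations
-/

set_option autoImplicit false

open scoped InnerProductSpace Topology ContDiff Manifold
open MeasureTheory Filter Set

noncomputable section

namespace Pool.Agent.FLX.H77

open Pool.Agent.Helper42_Paneitz Pool.Agent.Helper82_Vir

theorem diffAt1 {f : S4 → ℝ} (hf : CkS 1 f) {y : E5} (hy : y ≠ 0) :
    DifferentiableAt ℝ (radialExt f) y :=
  (hf y hy).differentiableAt (by simp)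

/-- derivative of a `C¹` function along a curve on the sphere -/
theorem along1 {f : S4 → ℝ} (hf : CkS 1 f) {c : ℝ → E5} {c' : E5} {t : ℝ} {x : S4}
    (hx : c t = (x : E5)) (hc : HasDerivAt c c' t) :
    HasDerivAt (fun t => radialExt f (c t)) (dd f x c') t := by
  have h1 : HasFDerivAt (radialExt f) (fderiv ℝ (radialExt f) (c t)) (c t) := by
    rw [hx]; exact (diffAt1 hf (S4_ne_zero x)).hasFDerivAt
  have h2 := h1.comp_hasDerivAt t hc
  rw [hx] at h2
  exact h2

theorem continuous_ddJ {f : S4 → ℝ} (hf : CkS 1 f) (p q : E5) :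
    Continuous fun x : S4 => dd f x (Jf p q (x : E5)) := by
  rw [continuous_iff_continuousAt]
  intro x
  have h1 : ContinuousAt (fderiv ℝ (radialExt f)) (x : E5) := by
    have h := (hf x (S4_ne_zero x)).fderiv_right (m := 0) (by simp)
    exact h.continuousAt
  have h2 : ContinuousAt (fun x : S4 => fderiv ℝ (radialExt f) (x : E5)) x :=
    ContinuousAt.comp (f := fun x : S4 => (x : E5)) h1 continuous_subtype_val.continuousAt
  exact h2.clm_apply (continuous_Jf p q).continuousAt

section

variable {p q : E5} (hp : ‖p‖ = 1) (hq : ‖q‖ = 1) (hpq : ⟪p, q⟫_ℝ = 0)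

include hp hq hpq

theorem hasDeriv_act {f : S4 → ℝ} (hf : CkS 1 f) (y : S4) (t : ℝ) :
    HasDerivAt (fun t => f (act (rotE hp hq hpq t) y))
      (dd f (act (rotE hp hq hpq t) y) (Jf p q (act (rotE hp hq hpq t) y : E5))) t := by
  have h1 := along1 hf (c := fun t => rot p q t y) (x := act (rotE hp hq hpq t) y)
    (t := t) rfl (hasDerivAt_rot hp hq hpq (y : E5) t)
  have h2 : (fun t => f (act (rotE hp hq hpq t) y)) = fun t => radialExt f (rot p q t y) := by
    funext s
    have := radialExt_coe f (act (rotE hp hq hpq s) y)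
    exact this.symm
  rw [h2]
  exact h1

theorem act_zero (y : S4) : act (rotE hp hq hpq 0) y = y := by
  apply Subtype.ext
  show rot p q 0 (y : E5) = y
  simp [rot]

/-- differentiation under the integral sign, with an integrable factor -/
theorem deriv_int {f : S4 → ℝ} (hf : CkS 1 f) {k : S4 → ℝ} (hk : Integrable k sig) (c : ℝ) :
    HasDerivAt (fun t : ℝ => ∫ y, k y * (f (act (rotE hp hq hpq t) y) - c) ∂sig)
      (∫ y, k y * dd f y (Jf p q (y : E5)) ∂sig) 0 := by
  have hfc := continuous_of_cks hf
  have hcont := continuous_ddJ hf p q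
  obtain ⟨C, hC⟩ := isCompact_univ.exists_bound_of_continuousOn (hcont.continuousOn (s := univ))
  have hbd : ∀ t : ℝ, Integrable (fun y => k y * (f (act (rotE hp hq hpq t) y) - c)) sig := by
    intro t
    have h1 : Continuous fun y => f (act (rotE hp hq hpq t) y) - c :=
      (hfc.comp (continuous_act _)).sub continuous_const
    obtain ⟨D, hD⟩ := isCompact_univ.exists_bound_of_continuousOn (h1.continuousOn (s := univ))
    exact hk.mul_bdd (c := D) h1.aestronglyMeasurable
      (Eventually.of_forall fun y => hD y (mem_univ _))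
  have hmain := hasDerivAt_integral_of_dominated_loc_of_deriv_le (μ := sig) (𝕜 := ℝ)
    (F := fun t y => k y * (f (act (rotE hp hq hpq t) y) - c))
    (F' := fun t y => k y * dd f (act (rotE hp hq hpq t) y)
      (Jf p q (act (rotE hp hq hpq t) y : E5))) (x₀ := 0) (s := univ)
    (bound := fun y => ‖k y‖ * C)
    univ_mem
    (Eventually.of_forall fun t => (hbd t).aestronglyMeasurable)
    (hbd 0)
    (hk.aestronglyMeasurable.mul (hcont.comp (continuous_act _)).aestronglyMeasurable)
    (Eventually.of_forall fun y t _ => by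
      rw [norm_mul]
      exact mul_le_mul_of_nonneg_left (hC _ (mem_univ _)) (norm_nonneg _))
    (hk.norm.mul_const C)
    (Eventually.of_forall fun y t _ =>
      ((hasDeriv_act hp hq hpq hf y t).sub_const c).const_mul (k y))
  have h4 := hmain.2
  have h6 : ∀ y : S4, act (rotE hp hq hpq 0) y = y := act_zero hp hq hpq
  simpa only [h6] using h4

theorem int_ddJ {f : S4 → ℝ} (hf : CkS 1 f) : ∫ y, dd f y (Jf p q (y : E5)) ∂sig = 0 := by
  have h := deriv_int hp hq hpq hf (integrable_const (1 : ℝ)) 0
  simp only [one_mul, sub_zero] at h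
  have h3 : (fun t : ℝ => ∫ y, f (act (rotE hp hq hpq t) y) ∂sig) =
      fun _ => ∫ y, f y ∂sig := by
    funext t; exact integral_act _ (continuous_of_cks hf)
  rw [h3] at h
  exact h.unique (hasDerivAt_const (0 : ℝ) _)

end

theorem act_symm_act (R : E5 ≃ₗᵢ[ℝ] E5) (x : S4) : act R.symm (act R x) = x := by
  apply Subtype.ext
  show R.symm (R (x : E5)) = x
  rw [R.symm_apply_apply]

theorem emb_act (R : E5 ≃ₗᵢ[ℝ] E5) : MeasurableEmbedding (act R) :=
  (continuous_act R).measurableEmbedding fun x y h => by
    rw [← act_symm_act R x, h, act_symm_act]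

theorem ell_act (R : E5 ≃ₗᵢ[ℝ] E5) (x y : S4) : ell (act R x) (act R y) = ell x y := by
  unfold ell
  rw [act_coe, act_coe, R.inner_map_map]

theorem K_act (R : E5 ≃ₗᵢ[ℝ] E5) (f : S4 → ℝ) (x : S4) :
    K f (act R x) = (∫ y, ell x y * (f (act R y) - avg f) ∂sig) / (6 * msig) := by
  unfold K
  congr 1
  rw [← (measurePreserving_act R).integral_comp (emb_act R)
    fun y => ell (act R x) y * (f y - avg f)]
  simp only [ell_act]

/-- REB -/
theorem reb (hker : KerStmt) (hrea : ReaStmt) : RebStmt := by
  intro f hf p q hp hq hpq x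
  have hKf := hrea f (continuous_of_cks hf)
  have h1 := hasDeriv_act hp hq hpq hKf x 0
  rw [act_zero hp hq hpq] at h1
  have h2 := (deriv_int hp hq hpq hf (hker.1 x) (avg f)).div_const (6 * msig)
  have h3 : (fun t => K f (act (rotE hp hq hpq t) x)) = fun t : ℝ =>
      (∫ y, ell x y * (f (act (rotE hp hq hpq t) y) - avg f) ∂sig) / (6 * msig) := by
    funext t
    exact K_act _ f x
  rw [h3] at h1
  rw [h1.unique h2]
  unfold K
  have h4 : avg (fun y => dd f y (Jf p q (y : E5))) = 0 := by
    unfold avg
    rw [int_ddJ hp hq hpq hf, zero_div]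
  rw [h4]
  simp only [sub_zero]

end Pool.Agent.FLX.H77
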